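import Mathlib
import Pool.Agent.EDG.Stmts

set_option autoImplicit false

/-! Row SET of the squad EDG: from the parameter `c` to the minimal polynomial of the fixed point. -/

namespace Pool.Agent.EDG.H66

open Polynomial

theorem Yp_one : Yp 1 = -X ^ 2 := by
  rw [Yp_succ, Yp_zero]
  ring

theorem Yp_two : Yp 2 = X ^ 4 - 2 * X ^ 3 := by
  rw [Yp_succ, Yp_one]
  ring

theorem Yp_monic (i : ℕ) : (Yp (i + 2)).Monic ∧ (Yp (i + 2)).natDegree = 2 ^ (i + 2) := by
  induction i with
  | zero =>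
    rw [zero_add, Yp_two]
    constructor
    · monicity!
    · compute_degree!
  | succ i ih =>
    obtain ⟨h1, h2⟩ := ih
    have h3 : i + 1 + 2 = (i + 2) + 1 := by ring
    rw [h3, Yp_succ]
    set p := Yp (i + 2) with hp
    have hm : (p ^ 2).Monic := h1.pow 2
    have hdm : (p ^ 2).natDegree = 2 ^ (i + 2 + 1) := by
      rw [h1.natDegree_pow, h2]
      ring
    have hlt : (2 * X * p).natDegree < (p ^ 2).natDegree := by
      rw [hdm]
      have h4 : (2 * X * p).natDegree ≤ 1 + 2 ^ (i + 2) := by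
        refine natDegree_mul_le.trans ?_
        rw [h2]
        refine Nat.add_le_add_right ?_ _
        compute_degree
      have h5 : 1 < 2 ^ (i + 2) := Nat.one_lt_two_pow (by omega)
      have h6 : 2 ^ (i + 2 + 1) = 2 ^ (i + 2) + 2 ^ (i + 2) := by ring
      omega
    have hdeg : (2 * X * p).degree < (p ^ 2).degree := degree_lt_degree hlt
    refine ⟨hm.add_of_left hdeg, ?_⟩
    rw [natDegree_add_eq_left_of_natDegree_lt hlt, hdm]

theorem it_eq {b c : ℂ} (hb : b ^ 2 - b + c = 0) (i : ℕ) :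
    it b (-b) i + b = (fun z : ℂ => z ^ 2 + c)^[i] 0 := by
  induction i with
  | zero => simp [it_zero]
  | succ i ih =>
    rw [Function.iterate_succ_apply', ← ih, it_succ]
    linear_combination (-1) * hb

theorem root_iff {b c : ℂ} (hb : b ^ 2 - b + c = 0) (i : ℕ) :
    aeval b (Yp i - Yp 0) = (fun z : ℂ => z ^ 2 + c)^[i] 0 := by
  rw [map_sub, aeval_Yp, aeval_Yp, it_zero, ← it_eq hb i]
  ring

theorem isIntegral_of_period {b c : ℂ} (hb : b ^ 2 - b + c = 0) {n : ℕ} (hn : 0 < n)
    (h : (fun z : ℂ => z ^ 2 + c)^[n] 0 = 0) : IsIntegral ℤ b := by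
  have hroot : aeval b (Yp n - Yp 0) = 0 := by rw [root_iff hb, h]
  obtain rfl | ⟨i, rfl⟩ : n = 1 ∨ ∃ i, n = i + 2 := by
    rcases Nat.lt_or_ge n 2 with h | h
    · exact Or.inl (by omega)
    · exact Or.inr ⟨n - 2, by omega⟩
  · refine ⟨X ^ 2 - X, by monicity!, ?_⟩
    rw [Yp_one, Yp_zero] at hroot
    have h1 : aeval b (X ^ 2 - X : ℤ[X]) = 0 := by
      have h2 : (X ^ 2 - X : ℤ[X]) = -(-X ^ 2 - -X) := by ring
      rw [h2, map_neg, hroot, neg_zero]
    rwa [aeval_def] at h1
  · obtain ⟨h1, h2⟩ := Yp_monic i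
    refine ⟨Yp (i + 2) - Yp 0, ?_, ?_⟩
    · rw [Yp_zero, sub_neg_eq_add]
      refine h1.add_of_left (degree_lt_degree ?_)
      rw [natDegree_X, h2]
      exact Nat.one_lt_two_pow (by omega)
    · rwa [aeval_def] at hroot

theorem set : SetStmt := by
  intro n c hn hper
  obtain ⟨z, hz⟩ := IsAlgClosed.exists_eq_mul_self (1 - 4 * c)
  obtain ⟨b, hb⟩ : ∃ b : ℂ, b ^ 2 - b + c = 0 := ⟨(1 + z) / 2, by linear_combination (-1 / 4) * hz⟩
  have hpt : Function.IsPeriodicPt (fun z : ℂ => z ^ 2 + c) n 0 := by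
    rw [← hper]
    exact Function.isPeriodicPt_minimalPeriod _ _
  have hbi : IsIntegral ℤ b := isIntegral_of_period hb hn hpt
  refine ⟨minpoly ℤ b, ⟨hn, minpoly.monic hbi, minpoly.irreducible hbi, ?_, ?_⟩, ?_⟩
  · exact minpoly.isIntegrallyClosed_dvd hbi (by rw [root_iff hb]; exact hpt)
  · intro i hi hin hdvd
    have h0 : aeval b (Yp i - Yp 0) = 0 := by
      obtain ⟨q, hq⟩ := hdvd
      rw [hq, map_mul, minpoly.aeval, zero_mul]
    rw [root_iff hb] at h0
    have hle := Function.IsPeriodicPt.minimalPeriod_le hi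
      (show Function.IsPeriodicPt (fun z : ℂ => z ^ 2 + c) i 0 from h0)
    rw [hper] at hle
    omega
  · have hc : c = b - b ^ 2 := by linear_combination hb
    have hci : IsIntegral ℚ c := by
      have h1 : IsIntegral ℤ c := by
        rw [hc]
        exact hbi.sub (hbi.pow 2)
      exact h1.tower_top
    have hdeg : (minpoly ℤ b).natDegree = (minpoly ℚ b).natDegree := by
      rw [minpoly.isIntegrallyClosed_eq_field_fractions' ℚ hbi, (minpoly.monic hbi).natDegree_map]
    rw [hdeg]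
    have hr : (X - X ^ 2 : ℚ[X]).natDegree = 2 := by
      have h1 : (X - X ^ 2 : ℚ[X]) = -(X ^ 2 - X) := by ring
      rw [h1, natDegree_neg]
      compute_degree!
    have hq : ((minpoly ℚ c).comp (X - X ^ 2)).natDegree = (minpoly ℚ c).natDegree * 2 := by
      rw [natDegree_comp, hr]
    have hq0 : (minpoly ℚ c).comp (X - X ^ 2) ≠ 0 := by
      intro h0
      rw [h0, natDegree_zero] at hq
      have := minpoly.natDegree_pos hci
      omega
    have hdvd : minpoly ℚ b ∣ (minpoly ℚ c).comp (X - X ^ 2) := by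
      refine minpoly.dvd ℚ b ?_
      rw [aeval_comp, map_sub, map_pow, aeval_X, ← hc, minpoly.aeval]
    have := natDegree_le_of_dvd hdvd hq0
    rw [hq] at this
    omega

end Pool.Agent.EDG.H66
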